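import Mathlib
import Pool.Agent.H26.CU.Last

set_option autoImplicit false

/-!
Cuttings of the cycles of the `qx+d` maps into short words: the number of the runs of equal ascending
words is at least `c log |Z|` for every `c < 1 / log (log q / log 2)`; the other words are not counted.
-/

namespace Pool.Agent.Results.MP_dee342_nt.AscendingRuns

/-- The map `T_{q,d}`. -/
def T (q d x : ℤ) : ℤ := if x % 2 = 0 then x / 2 else (q * x + d) / 2

/-- `Z` is a periodic orbit of `f`: `Z = {x, f x, ..., f^(p-1) x}` with `p ≥ 1` and `f^p x = x`. -/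
def IsCycle (f : ℤ → ℤ) (Z : Finset ℤ) : Prop :=
  ∃ x : ℤ, ∃ p : ℕ, 1 ≤ p ∧ f^[p] x = x ∧ Z = (Finset.range p).image (fun i => f^[i] x)

/-- The number of steps from `y` to the next marked element (`S` is the set of the marked elements):
the least `j ≥ 1` with `f^j y ∈ S`. -/
noncomputable def gap (f : ℤ → ℤ) (S : Finset ℤ) (y : ℤ) : ℕ := sInf {j | 1 ≤ j ∧ f^[j] y ∈ S}

/-- The word of `y`: the parities of `y, f y, ...` up to the next marked element, which is not
included. -/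
noncomputable def word (f : ℤ → ℤ) (S : Finset ℤ) (y : ℤ) : List ℤ :=
  (List.range (gap f S y)).map fun i => f^[i] y % 2

/-- The next marked element. -/
noncomputable def nxt (f : ℤ → ℤ) (S : Finset ℤ) (y : ℤ) : ℤ := f^[gap f S y] y

/-- Every element of `Z` reaches a marked element in at most `ℓ` steps: the cycle is cut into words
of length at most `ℓ`. -/
def Within (f : ℤ → ℤ) (Z S : Finset ℤ) (ℓ : ℕ) : Prop :=
  ∀ z ∈ Z, ∃ j, 1 ≤ j ∧ j ≤ ℓ ∧ f^[j] z ∈ S

/-- A word is ascending if `2 ^ length < q ^ (number of odd letters)`. -/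
def Ascending (q : ℕ) (u : List ℤ) : Prop := 2 ^ u.length < q ^ u.count 1

open Classical in
/-- The ends of the runs of equal ascending words: the marked elements whose word is ascending and
different from the word of the next marked element. -/
noncomputable def turns (q : ℕ) (f : ℤ → ℤ) (S : Finset ℤ) : Finset ℤ :=
  S.filter fun y => Ascending q (word f S y) ∧ word f S (nxt f S y) ≠ word f S y

/-- Let `Z` be a cycle of `T_{q,d}`, `S ⊆ Z` a set of marked elements which cuts `Z` into words of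
length at most `ℓ`, and let `c < 1 / log (log q / log 2)`. Then `c log |Z|` is at most the number of
the ends of runs of equal ascending words plus `C1 log ℓ + C2` (for `q = 3`) or
`C1 (log ℓ)^2 + C2` (for an odd prime `q`), where `C1` depends on `q, c` only and `C2` on `q, c, d`. So
there are only finitely many cycles which can be cut into words of length at most `|Z|^η` (for `q = 3`)
or `exp (η (log |Z|)^(1/2))` (for an odd prime `q`) such that there are at most `c log |Z|` ends of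
runs of equal ascending words; here `η > 0` depends on `q, c` only. -/
theorem result :
    (∀ c : ℝ, c < 1 / Real.log (Real.log 3 / Real.log 2) → ∃ C1 : ℝ, ∀ d : ℤ, d % 2 = 1 →
      ∃ C2 : ℝ, ∀ (ℓ : ℕ) (Z S : Finset ℤ), IsCycle (T 3 d) Z → S ⊆ Z → Within (T 3 d) Z S ℓ →
        c * Real.log Z.card ≤ (turns 3 (T 3 d) S).card + C1 * Real.log ℓ + C2) ∧
    (∀ q : ℕ, q.Prime → q ≠ 2 → ∀ c : ℝ, c < 1 / Real.log (Real.log q / Real.log 2) →
      ∃ C1 : ℝ, ∀ d : ℤ, d % 2 = 1 →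
      ∃ C2 : ℝ, ∀ (ℓ : ℕ) (Z S : Finset ℤ), IsCycle (T q d) Z → S ⊆ Z → Within (T q d) Z S ℓ →
        c * Real.log Z.card ≤ (turns q (T q d) S).card + C1 * Real.log ℓ ^ 2 + C2) ∧
    (∀ c : ℝ, c < 1 / Real.log (Real.log 3 / Real.log 2) → ∃ η : ℝ, 0 < η ∧ ∀ d : ℤ, d % 2 = 1 →
      {Z : Finset ℤ | IsCycle (T 3 d) Z ∧ ∃ S ⊆ Z, ∃ ℓ : ℕ, Within (T 3 d) Z S ℓ ∧
        (ℓ : ℝ) ≤ (Z.card : ℝ) ^ η ∧
        ((turns 3 (T 3 d) S).card : ℝ) ≤ c * Real.log Z.card}.Finite) ∧
    (∀ q : ℕ, q.Prime → q ≠ 2 → ∀ c : ℝ, c < 1 / Real.log (Real.log q / Real.log 2) →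
      ∃ η : ℝ, 0 < η ∧ ∀ d : ℤ, d % 2 = 1 →
      {Z : Finset ℤ | IsCycle (T q d) Z ∧ ∃ S ⊆ Z, ∃ ℓ : ℕ, Within (T q d) Z S ℓ ∧
        (ℓ : ℝ) ≤ Real.exp (η * √(Real.log Z.card)) ∧
        ((turns q (T q d) S).card : ℝ) ≤ c * Real.log Z.card}.Finite) := by
  refine ⟨fun c hc => ?_, fun q hq hq2 c hc => ?_, fun c hc => Pool.Agent.H26.CU.fin3 c hc,
    fun q hq hq2 c hc => Pool.Agent.H26.CU.finP q hq hq2 c hc⟩
  · obtain ⟨C1, -, h⟩ := Pool.Agent.H26.CU.turns3 c hc
    refine ⟨C1, fun d hd => ?_⟩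
    obtain ⟨C2, h2⟩ := h d hd
    refine ⟨C2, fun ℓ Z S hZ hSZ hW => ?_⟩
    obtain ⟨z, hz⟩ := Pool.Agent.H15.Asc.IsCycle.nonempty hZ
    obtain ⟨j, hj1, hj2, -⟩ := hW z hz
    exact h2 ℓ Z S (hj1.trans hj2) hZ hSZ hW
  · obtain ⟨C1, -, h⟩ := Pool.Agent.H26.CU.turnsP q hq hq2 c hc
    refine ⟨C1, fun d hd => ?_⟩
    obtain ⟨C2, h2⟩ := h d hd
    refine ⟨C2, fun ℓ Z S hZ hSZ hW => ?_⟩
    obtain ⟨z, hz⟩ := Pool.Agent.H15.Asc.IsCycle.nonempty hZ
    obtain ⟨j, hj1, hj2, -⟩ := hW z hz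
    exact h2 ℓ Z S (hj1.trans hj2) hZ hSZ hW

end Pool.Agent.Results.MP_dee342_nt.AscendingRuns
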