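import Mathlib
import Pool.Agent.H15.Asc.FinP

set_option autoImplicit false

/-!
For every `M` each of the maps `3x+1`, `5x+1` and all maps `qx+d`, `q` an odd prime, has only finitely
many cycles with at most `M` ascents in the cyclic sequence of the local minima.
-/

namespace Pool.Agent.Results.MP_dee342_nt.AscentsOfCycles

/-- The map `T_{q,d}`. -/
def T (q d x : ℤ) : ℤ := if x % 2 = 0 then x / 2 else (q * x + d) / 2

/-- `Z` is a periodic orbit of `f`: `Z = {x, f x, ..., f^(p-1) x}` with `p ≥ 1` and `f^p x = x`. -/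
def IsCycle (f : ℤ → ℤ) (Z : Finset ℤ) : Prop :=
  ∃ x : ℤ, ∃ p : ℕ, 1 ≤ p ∧ f^[p] x = x ∧ Z = (Finset.range p).image (fun i => f^[i] x)

/-- `x` is a local minimum of the cycle `Z`: an odd element whose predecessor in `Z` is even
(and therefore `2x`). Every cycle with elements of both parities is a sequence of circuits (some odd
elements, then some even ones), and the local minima are the elements at which the circuits start. -/
def IsMin (Z : Finset ℤ) (x : ℤ) : Prop := x ∈ Z ∧ x % 2 = 1 ∧ 2 * x ∈ Z

open Classical in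
/-- The ascents: the local minima `x` of `Z` such that the next local minimum `f^j x` of the orbit
has a larger absolute value. -/
noncomputable def ascents (f : ℤ → ℤ) (Z : Finset ℤ) : Finset ℤ :=
  Z.filter fun x => IsMin Z x ∧ ∃ j, 1 ≤ j ∧ IsMin Z (f^[j] x) ∧
    (∀ i, 1 ≤ i → i < j → ¬ IsMin Z (f^[i] x)) ∧ |x| < |f^[j] x|

/-- For every odd prime `q` there is `c > 0` such that for every odd `d`: (1) for some `C`, in every
cycle `Z` of `T_{q,d}` the cyclic sequence of the local minima has at least `c (log |Z|)^(1/2) - C`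
ascents; (2) for every `M` only finitely many cycles of `T_{q,d}` have at most `M` ascents. -/
theorem result (q : ℕ) (hq : q.Prime) (hq2 : q ≠ 2) : ∃ c : ℝ, 0 < c ∧ ∀ d : ℤ, d % 2 = 1 →
    (∃ C : ℝ, ∀ Z : Finset ℤ, IsCycle (T q d) Z →
      c * Real.sqrt (Real.log Z.card) ≤ (ascents (T q d) Z).card + C) ∧
    ∀ M : ℕ, {Z : Finset ℤ | IsCycle (T q d) Z ∧ (ascents (T q d) Z).card ≤ M}.Finite :=
  Pool.Agent.H15.Asc.finP q hq hq2

end Pool.Agent.Results.MP_dee342_nt.AscentsOfCycles
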