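import Mathlib
import Pool.Agent.H15.St.Cyc

set_option autoImplicit false

/-!
In every cycle of the maps `3x+d` a proportion of at least `1 / (C |d| S^51)` of the elements have a
stopping time larger than `S`, for all `S`; similarly for all maps `qx+d`, `q` an odd prime.
-/

namespace Pool.Agent.Results.MP_dee342_nt.LongStoppingTimes

/-- The map `T_{q,d}`. -/
def T (q d x : ℤ) : ℤ := if x % 2 = 0 then x / 2 else (q * x + d) / 2

/-- `Z` is a periodic orbit of `f`: `Z = {x, f x, ..., f^(p-1) x}` with `p ≥ 1` and `f^p x = x`. -/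
def IsCycle (f : ℤ → ℤ) (Z : Finset ℤ) : Prop :=
  ∃ x : ℤ, ∃ p : ℕ, 1 ≤ p ∧ f^[p] x = x ∧ Z = (Finset.range p).image (fun i => f^[i] x)

/-- The stopping time of `x` is larger than `S`: none of `f x, ..., f^S x` is smaller than `x` in
absolute value. -/
def Long (f : ℤ → ℤ) (S : ℕ) (x : ℤ) : Prop := ∀ j, 1 ≤ j → j ≤ S → |x| ≤ |f^[j] x|

open Classical in
/-- The elements of `Z` whose stopping time is larger than `S`. -/
noncomputable def long (f : ℤ → ℤ) (S : ℕ) (Z : Finset ℤ) : Finset ℤ := Z.filter (Long f S)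

/-- (1) There is `C` such that for all odd `d`, all cycles `Z` of `T_{3,d}` and all `S ≥ 1` at least
`|Z| / (C |d| S^51)` elements of `Z` have a stopping time larger than `S`. (2) For every odd prime `q`
there is `C` such that for all odd `d`, all cycles `Z` of `T_{q,d}` and all `S ≥ 1` at least
`|Z| / (|d| exp (C (1 + log S)^2))` elements of `Z` have a stopping time larger than `S`. (3) For all
odd primes `q`, odd `d` and all `S` and `B` only finitely many cycles of `T_{q,d}` have at most `B`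
elements with a stopping time larger than `S`. -/
theorem result :
    (∃ C : ℝ, ∀ d : ℤ, d % 2 = 1 → ∀ Z : Finset ℤ, IsCycle (T 3 d) Z → ∀ S : ℕ, 1 ≤ S →
      (Z.card : ℝ) ≤ C * |(d : ℝ)| * (S : ℝ) ^ 51 * (long (T 3 d) S Z).card) ∧
    (∀ q : ℕ, q.Prime → q ≠ 2 → ∃ C : ℝ, ∀ d : ℤ, d % 2 = 1 → ∀ Z : Finset ℤ,
      IsCycle (T q d) Z → ∀ S : ℕ, 1 ≤ S →
      (Z.card : ℝ) ≤ |(d : ℝ)| * Real.exp (C * (1 + Real.log S) ^ 2) * (long (T q d) S Z).card) ∧
    ∀ q : ℕ, q.Prime → q ≠ 2 → ∀ d : ℤ, d % 2 = 1 → ∀ S B : ℕ,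
      {Z : Finset ℤ | IsCycle (T q d) Z ∧ (long (T q d) S Z).card ≤ B}.Finite := by
  refine ⟨⟨66 * (2 ^ 13 * 86 ^ 49), fun d hd Z hZ S hS => ?_⟩, fun q hq hq2 => ?_,
    fun q hq hq2 d hd S B => ?_⟩
  · exact Pool.Agent.H15.St.cycle3 hd hZ hS
  · obtain ⟨C, hC, hlow⟩ := Pool.Agent.H15.Asc.nuE_low q hq hq2
    have hq3 : 3 ≤ q := by have := hq.two_le; omega
    have hqo : q % 2 = 1 := by
      rcases hq.eq_two_or_odd with h | h
      · exact absurd h hq2
      · exact h
    refine ⟨C + 2 + 22 * q, fun d hd Z hZ S hS => ?_⟩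
    have h1 := Pool.Agent.H15.St.cycleP hq3 hqo hC hlow hd hZ hS
    refine h1.trans ?_
    apply mul_le_mul_of_nonneg_right _ (Nat.cast_nonneg _)
    have hS1 : (1 : ℝ) ≤ S := by exact_mod_cast hS
    have hl : 0 ≤ Real.log S := Real.log_nonneg hS1
    set w : ℝ := (1 + Real.log S) ^ 2 with hw
    have hw1 : 1 + Real.log S ≤ w := by rw [hw]; nlinarith
    have h2 : (S : ℝ) ^ 2 ≤ Real.exp (2 * w) := by
      have h3 : (S : ℝ) ^ 2 = Real.exp (2 * Real.log S) := by
        rw [two_mul, Real.exp_add, Real.exp_log (by linarith)]; ring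
      rw [h3]
      exact Real.exp_le_exp.2 (by linarith)
    have h4 : 22 * (q : ℝ) ≤ Real.exp (22 * q * w) := by
      have h5 := Real.add_one_le_exp (22 * (q : ℝ) * w)
      have h6 : 22 * (q : ℝ) * 1 ≤ 22 * q * w :=
        mul_le_mul_of_nonneg_left (by linarith) (by positivity)
      linarith
    have h7 : Real.exp ((C + 2 + 22 * q) * w) =
        Real.exp (C * w) * Real.exp (2 * w) * Real.exp (22 * q * w) := by
      rw [← Real.exp_add, ← Real.exp_add]; congr 1; ring
    rw [h7]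
    have h8 : 22 * (q : ℝ) * (S : ℝ) ^ 2 ≤ Real.exp (22 * q * w) * Real.exp (2 * w) :=
      mul_le_mul h4 h2 (by positivity) (Real.exp_pos _).le
    have h9 : 22 * (q : ℝ) * |(d : ℝ)| * S ^ 2 * Real.exp (C * w) =
        |(d : ℝ)| * Real.exp (C * w) * (22 * q * S ^ 2) := by ring
    rw [h9]
    refine (mul_le_mul_of_nonneg_left h8 (by positivity)).trans (le_of_eq (by ring))
  · exact Pool.Agent.H15.St.cycle_fin hq hq2 hd S B

end Pool.Agent.Results.MP_dee342_nt.LongStoppingTimes
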