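import Mathlib
import Pool.Agent.H15.Cx.Fin

set_option autoImplicit false

/-!
Only finitely many cycles of the maps `3x+1`, `5x+1` and of all maps `qx+d`, `q` an odd prime, have
low word complexity and polynomially bounded oscillation.
-/

namespace Pool.Agent.Results.MP_dee342_nt.LowComplexity

/-- The map `T_{q,d}`. -/
def T (q d x : ℤ) : ℤ := if x % 2 = 0 then x / 2 else (q * x + d) / 2

/-- `Z` is a periodic orbit of `f`: `Z = {x, f x, ..., f^(p-1) x}` with `p ≥ 1` and `f^p x = x`. -/
def IsCycle (f : ℤ → ℤ) (Z : Finset ℤ) : Prop :=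
  ∃ x : ℤ, ∃ p : ℕ, 1 ≤ p ∧ f^[p] x = x ∧ Z = (Finset.range p).image (fun i => f^[i] x)

/-- The parities of `x, f x, ..., f^(L-1) x`. -/
def word (f : ℤ → ℤ) (L : ℕ) (x : ℤ) : List ℤ := (List.range L).map fun i => f^[i] x % 2

/-- The parity words of length `L` which can be read along `Z`. -/
def words (f : ℤ → ℤ) (Z : Finset ℤ) (L : ℕ) : Finset (List ℤ) := Z.image (word f L)

/-- For every odd prime `q` there is `c > 0` such that for every odd `d` and all `A ≥ 0` and `B` only
finitely many periodic orbits `Z` of `T_{q,d}` have elements which differ in size by a factor of at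
most `B |Z|^A` and, for every `L`, at most `B exp (c L^(1/2))` parity words of length `L`. In
particular these are finitely many for polynomial word complexity. -/
theorem result (q : ℕ) (hq : q.Prime) (hq2 : q ≠ 2) : ∃ c : ℝ, 0 < c ∧ ∀ d : ℤ, d % 2 = 1 →
    ∀ A B : ℝ, 0 ≤ A → {Z : Finset ℤ | IsCycle (T q d) Z ∧
      (∀ x ∈ Z, ∀ y ∈ Z, |(x : ℝ)| ≤ B * (Z.card : ℝ) ^ A * |(y : ℝ)|) ∧
      ∀ L : ℕ, ((words (T q d) Z L).card : ℝ) ≤ B * Real.exp (c * Real.sqrt L)}.Finite :=
  Pool.Agent.H15.Cx.finP q hq hq2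

end Pool.Agent.Results.MP_dee342_nt.LowComplexity
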